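import Pool.Agent.helper58.DC.Spec3

/-!
Module FR of project dq: the number of functions on words with trivial stabiliser.
-/

set_option autoImplicit false

namespace Pool.Agent.helper54.DC

open Pool.Agent.helper58.DC

/-- functions with trivial stabiliser -/
def FR_R (G T X : Type) [Group G] [MulAction G T] : Type :=
  {f : T → X // ∀ s : G, (∀ t, f (s • t) = f t) → s = 1}

section gen

variable {G T X : Type} [Group G] [MulAction G T]

theorem FR_free {f : T → X} (hf : ∀ s : G, (∀ t, f (s • t) = f t) → s = 1) {s s' : G}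
    (h : ∀ t, f (s • t) = f (s' • t)) : s = s' := by
  have : s * s'⁻¹ = 1 := hf _ fun t => by
    rw [mul_smul, h (s'⁻¹ • t), smul_inv_smul]
  exact mul_inv_eq_one.1 this

theorem FR_tr {f : T → X} (hf : ∀ s : G, (∀ t, f (s • t) = f t) → s = 1) (s : G) :
    ∀ u : G, (∀ t, f (s • u • t) = f (s • t)) → u = 1 := by
  intro u h
  have : s * u = s := FR_free hf fun t => by rw [mul_smul, h]
  exact mul_eq_left.1 this

theorem FR_card {C : Type} [Finite C] (c0 : C) :
    Nat.card (FR_R G T X) * Nat.card G ^ Nat.card C =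
      Nat.card {F : C → FR_R G T X // ∀ c, ∃ s : G, ∀ t, (F c0).1 (s • t) = (F c).1 t} *
        Nat.card G := by
  rw [← Nat.card_fun, ← Nat.card_prod, ← Nat.card_prod]
  refine Nat.card_congr (Equiv.ofBijective
    (fun p : FR_R G T X × (C → G) =>
      ((⟨fun c => ⟨fun t => p.1.1 (p.2 c • t), FR_tr p.1.2 (p.2 c)⟩,
        fun c => ⟨(p.2 c0)⁻¹ * p.2 c, fun t => by simp [mul_smul]⟩⟩ :
        {F : C → FR_R G T X // ∀ c, ∃ s : G, ∀ t, (F c0).1 (s • t) = (F c).1 t}), p.2 c0))
    ⟨?_, ?_⟩)
  · rintro ⟨f, b⟩ ⟨f', b'⟩ h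
    simp only [Prod.mk.injEq, Subtype.mk.injEq] at h
    obtain ⟨h1, h2⟩ := h
    have h3 : ∀ c t, f.1 (b c • t) = f'.1 (b' c • t) := fun c t =>
      congrFun (congrArg Subtype.val (congrFun h1 c)) t
    have h4 : f = f' := by
      apply Subtype.ext
      funext t
      have := h3 c0 ((b c0)⁻¹ • t)
      rw [← h2] at this
      simpa using this
    subst h4
    have h5 : b = b' := by
      funext c
      exact FR_free f.2 (h3 c)
    rw [h5]
  · rintro ⟨⟨F, hF⟩, s⟩
    have hF' := hF
    choose u hu using hF'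
    have hu0 : u c0 = 1 := (F c0).2 _ (hu c0)
    refine ⟨(⟨fun t => (F c0).1 (s⁻¹ • t), FR_tr (F c0).2 s⁻¹⟩, fun c => s * u c), ?_⟩
    simp only [Prod.mk.injEq]
    refine ⟨?_, by rw [hu0, mul_one]⟩
    apply Subtype.ext
    funext c
    apply Subtype.ext
    funext t
    simp only
    rw [← mul_smul, inv_mul_cancel_left]
    exact hu c t

/-- the families and the functions on the product -/
theorem FR_equiv (q : ℕ) [Fact q.Prime] :
    Nat.card {f : Cq q × T → X // ∀ w : WrQ G (Cq q) (Cq q),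
      (∀ c t, f (w.σ * c, w.a c • t) = f (c, t)) → w = 1} =
    Nat.card {F : Cq q → FR_R G T X // ¬ ∀ c, ∃ s : G, ∀ t, (F 1).1 (s • t) = (F c).1 t} := by
  classical
  have key1 : ∀ f : Cq q × T → X, (∀ w : WrQ G (Cq q) (Cq q),
      (∀ c t, f (w.σ * c, w.a c • t) = f (c, t)) → w = 1) →
      ∀ c (s : G), (∀ t, f (c, s • t) = f (c, t)) → s = 1 := by
    intro f hf c s hs
    have h1 := hf ⟨1, Function.update (fun _ => 1) c s⟩ fun c' t => by
      simp only [one_mul]
      by_cases h : c' = c
      · subst h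
        rw [Function.update_self, hs]
      · rw [Function.update_of_ne h, one_smul]
    have h2 := congrFun (congrArg WrQ.a h1) c
    simpa using h2
  refine Nat.card_congr ⟨fun f => ⟨fun c => ⟨fun t => f.1 (c, t), key1 f.1 f.2 c⟩, ?_⟩,
    fun F => ⟨fun p => (F.1 p.1).1 p.2, ?_⟩, ?_, ?_⟩
  · intro hall
    simp only at hall
    choose u hu using hall
    -- an element different from one
    obtain ⟨σ, hσ⟩ : ∃ σ : Cq q, σ ≠ 1 := exists_ne 1
    have h1 := f.2 ⟨σ, fun c => (u (σ * c))⁻¹ * u c⟩ fun c t => by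
      simp only
      rw [← hu (σ * c), ← mul_smul, mul_inv_cancel_left, hu c]
    exact hσ (congrArg WrQ.σ h1)
  · intro w hw
    simp only at hw
    have hσ : w.σ = 1 := by
      by_contra hne
      apply F.2
      intro c
      -- powers of `σ`
      have hpow : ∀ n : ℕ, ∃ s : G, ∀ t, (F.1 1).1 (s • t) = (F.1 (w.σ ^ n)).1 t := by
        intro n
        induction n with
        | zero => exact ⟨1, fun t => by simp⟩
        | succ n ih =>
          obtain ⟨s, hs⟩ := ih
          refine ⟨s * (w.a (w.σ ^ n))⁻¹, fun t => ?_⟩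
          have := hw (w.σ ^ n) ((w.a (w.σ ^ n))⁻¹ • t)
          rw [smul_inv_smul] at this
          rw [mul_smul, hs, ← this, pow_succ']
      obtain ⟨n, hn⟩ : ∃ n : ℕ, w.σ ^ n = c := by
        have hcard : Nat.card (Cq q) = q := by simp [Cq]
        have : IsCyclic (Cq q) := isCyclic_of_prime_card hcard
        have h2 : c ∈ Submonoid.powers w.σ := by
          have := mem_powers_of_prime_card (p := q) (g := w.σ) (g' := c) hcard hne
          exact this
        exact h2
      rw [← hn]
      exact hpow n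
    have ha : ∀ c, w.a c = 1 := by
      intro c
      refine (F.1 c).2 _ fun t => ?_
      have := hw c t
      rw [hσ, one_mul] at this
      exact this
    exact WrQ.ext hσ (funext ha)
  · intro f
    rfl
  · intro F
    rfl

end gen

theorem FR (hTF : TF_stmt) (hOZ : OZ_stmt) : FR_stmt := by
  intro q k x hq
  have : Fact q.Prime := ⟨hq⟩
  induction k with
  | zero =>
    have h1 : Nat.card (W q 0) = 1 := Nat.card_unique (α := Unit)
    have h2 : Nat.card {f : TT q 0 → Fin x // ∀ σ : W q 0, (∀ t, f (σ • t) = f t) → σ = 1} = x := by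
      have e : {f : TT q 0 → Fin x // ∀ σ : W q 0, (∀ t, f (σ • t) = f t) → σ = 1} ≃ Fin x :=
        (Equiv.subtypeUnivEquiv fun f σ _ => (rfl : σ = (1 : W q 0))).trans
          (Equiv.funUnique Unit (Fin x))
      rw [Nat.card_congr e, Nat.card_fin]
    rw [h1, h2]
    simp [ON]
  | succ k ih =>
    obtain ⟨hT, -, hW, hWc, -⟩ := hTF q k hq
    have e1 : Nat.card {f : TT q (k + 1) → Fin x //
        ∀ σ : W q (k + 1), (∀ t, f (σ • t) = f t) → σ = 1} =
        Nat.card {f : Cq q × TT q k → Fin x // ∀ w : WrQ (W q k) (Cq q) (Cq q),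
      (∀ c t, f (w.σ * c, w.a c • t) = f (c, t)) → w = 1} := by
      refine Nat.card_congr (Equiv.subtypeEquivRight fun f => ?_)
      constructor
      · intro h w hw
        exact h w fun t => hw t.1 t.2
      · intro h w hw
        exact h w fun c t => hw (c, t)
    rw [e1, FR_equiv, hWc]
    have hR : Finite (FR_R (W q k) (TT q k) (Fin x)) := by
      unfold FR_R
      infer_instance
    have hC : Nat.card (Cq q) = q := by simp [Cq]
    have h1 := FR_card (G := W q k) (T := TT q k) (X := Fin x) (1 : Cq q)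
    have h2 : Nat.card {F : Cq q → FR_R (W q k) (TT q k) (Fin x) //
        ∀ c, ∃ s : W q k, ∀ t, (F 1).1 (s • t) = (F c).1 t} +
        Nat.card {F : Cq q → FR_R (W q k) (TT q k) (Fin x) //
        ¬ ∀ c, ∃ s : W q k, ∀ t, (F 1).1 (s • t) = (F c).1 t} =
        Nat.card (FR_R (W q k) (TT q k) (Fin x)) ^ q := by
      classical
      rw [← Nat.card_sum, Nat.card_congr (Equiv.sumCompl _), Nat.card_fun, hC]
    rw [hC] at h1
    have h3 : (Nat.card (FR_R (W q k) (TT q k) (Fin x)) : ℤ) = Nat.card (W q k) * ON q x k := ih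
    have hg : 0 < Nat.card (W q k) := Nat.card_pos
    have hoz := (hOZ q hq x).1 k
    generalize Nat.card {F : Cq q → FR_R (W q k) (TT q k) (Fin x) //
        ∀ c, ∃ s : W q k, ∀ t, (F 1).1 (s • t) = (F c).1 t} = A at h1 h2
    generalize Nat.card {F : Cq q → FR_R (W q k) (TT q k) (Fin x) //
        ¬ ∀ c, ∃ s : W q k, ∀ t, (F 1).1 (s • t) = (F c).1 t} = B at h2 ⊢
    generalize Nat.card (FR_R (W q k) (TT q k) (Fin x)) = r at h1 h2 h3
    generalize Nat.card (W q k) = g at h1 h3 hg ⊢
    have hg' : (g : ℤ) ≠ 0 := by exact_mod_cast hg.ne'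
    have h1' : (r : ℤ) * (g : ℤ) ^ q = A * g := by exact_mod_cast h1
    have h2' : (A : ℤ) + B = (r : ℤ) ^ q := by exact_mod_cast h2
    rw [h3] at h1' h2'
    have h4 : (A : ℤ) = ON q x k * (g : ℤ) ^ q := by
      apply mul_right_cancel₀ hg'
      rw [← h1']
      ring
    have h5 : (B : ℤ) = (g : ℤ) ^ q * (ON q x k ^ q - ON q x k) := by
      rw [mul_pow] at h2'
      linear_combination h2' - h4
    rw [h5, ← hoz]
    push_cast
    ring

end Pool.Agent.helper54.DC
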